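import Pool.Agent.U36.SD.Stm

/-!
Project SD, package EXT: the algebraic closures of the completions.

Let `w` be a finite place of the number field `L` and `v` the place of `K` below it.  By the
Mathlib instance `Module.Finite K_v L_w` (for a continuous `K_v`-algebra structure on `L_w`
compatible with `K → L`), applied to the algebra structure given by `phi w`, the field `L_w` is
finite over `K_v`; hence an algebraic closure of `L_w` is also an algebraic closure of `K_v`.
-/

set_option autoImplicit false

open NumberField Polynomial IsDedekindDomain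

namespace Pool.Agent.U810.SD.EXT

open Pool.Agent.U36.SD Pool.Agent.U36.HV

theorem t_EXT : S_EXT := by
  intro K L _ _ _ _ _ w
  letI iA : Algebra ((w.under (𝓞 K)).adicCompletion K) (w.adicCompletion L) :=
    (phi (F := K) w).toAlgebra
  haveI iC : ContinuousSMul ((w.under (𝓞 K)).adicCompletion K) (w.adicCompletion L) :=
    ⟨((phi_cont (F := K) w).comp continuous_fst).mul continuous_snd⟩
  haveI iT : IsScalarTower K ((w.under (𝓞 K)).adicCompletion K) (w.adicCompletion L) :=
    IsScalarTower.of_algebraMap_eq fun a => by
      change _ = phi (F := K) w (algebraMap K _ a)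
      rw [phi_alg]
      exact IsScalarTower.algebraMap_apply K L (w.adicCompletion L) a
  haveI iF : Module.Finite ((w.under (𝓞 K)).adicCompletion K) (w.adicCompletion L) :=
    inferInstance
  haveI iG : Algebra.IsAlgebraic ((w.under (𝓞 K)).adicCompletion K) (w.adicCompletion L) :=
    inferInstance
  haveI iH : IsAlgClosure ((w.under (𝓞 K)).adicCompletion K)
      (AlgebraicClosure (w.adicCompletion L)) :=
    IsAlgClosure.ofAlgebraic ((w.under (𝓞 K)).adicCompletion K) (w.adicCompletion L) _
  let ψ := IsAlgClosure.equiv ((w.under (𝓞 K)).adicCompletion K)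
    (AlgebraicClosure ((w.under (𝓞 K)).adicCompletion K)) (AlgebraicClosure (w.adicCompletion L))
  refine ⟨ψ.toRingEquiv, fun x => ?_⟩
  change ψ (algebraMap _ _ x) = _
  rw [ψ.commutes, IsScalarTower.algebraMap_apply ((w.under (𝓞 K)).adicCompletion K)
    (w.adicCompletion L) (AlgebraicClosure (w.adicCompletion L))]
  rfl

end Pool.Agent.U810.SD.EXT
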